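import Mathlib

/-! Kernels at every regular cardinal for the comparability graph of a poset without infinite
chains. -/

set_option autoImplicit false

open Cardinal Set

namespace Pool.Agent.Helper31.RS

universe u

/-- Neighbours. -/
def nb {P : Type u} (adj : P → P → Prop) (v : P) : Set P := {x | adj v x}

/-- `S θ` (`θ` regular) is a coherent family of kernels. -/
structure IsKernel {P : Type u} (adj : P → P → Prop) (S : Cardinal.{u} → Set P) : Prop where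
  k1 : ∀ {θ θ' : Cardinal.{u}} {v : P}, θ.IsRegular → θ'.IsRegular → θ ≤ θ' → v ∈ S θ →
    #(nb adj v ∩ S θ' : Set P) < θ'
  k2 : ∀ {θ : Cardinal.{u}} {v : P}, θ.IsRegular → v ∉ S θ →
    ∃ θ' : Cardinal.{u}, θ'.IsRegular ∧ θ ≤ θ' ∧ θ' ≤ #(nb adj v ∩ S θ' : Set P)

section Poset

variable {P : Type u} [PartialOrder P]

/-- proposers -/
def propSet (R : Set (P × Cardinal.{u})) : Set (P × Cardinal.{u}) :=
  {p | ∀ k : Cardinal.{u}, k.IsRegular → p.2 ≤ k → #{z : P | p.1 < z ∧ (z, k) ∉ R} < k}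

lemma propSet_mono {R R' : Set (P × Cardinal.{u})} (h : R ⊆ R') : propSet R ⊆ propSet R' := by
  intro p hp k hk hpk
  refine lt_of_le_of_lt (mk_le_mk_of_subset ?_) (hp k hk hpk)
  rintro z ⟨hz, hz'⟩
  exact ⟨hz, fun h' => hz' (h h')⟩

/-- rejections -/
def rejHom : Set (P × Cardinal.{u}) →o Set (P × Cardinal.{u}) where
  toFun R := {p | ∃ k : Cardinal.{u}, k.IsRegular ∧ p.2 ≤ k ∧
    k ≤ #{x : P | x < p.1 ∧ (x, k) ∈ propSet R}}
  monotone' := by
    rintro R R' h p ⟨k, hk, hpk, hle⟩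
    refine ⟨k, hk, hpk, hle.trans (mk_le_mk_of_subset ?_)⟩
    rintro x ⟨hx, hx'⟩
    exact ⟨hx, propSet_mono h hx'⟩

theorem exists_kernel [WellFoundedLT P] [WellFoundedGT P] :
    ∃ S : Cardinal.{u} → Set P, IsKernel (fun a b : P => b < a ∨ a < b) S := by
  classical
  set R : Set (P × Cardinal.{u}) := OrderHom.lfp rejHom with hRdef
  have hR : rejHom R = R := OrderHom.map_lfp rejHom
  have memR : ∀ (x : P) (θ : Cardinal.{u}), (x, θ) ∈ R ↔ ∃ k : Cardinal.{u}, k.IsRegular ∧ θ ≤ k ∧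
      k ≤ #{y : P | y < x ∧ (y, k) ∈ propSet R} := by
    intro x θ
    conv_lhs => rw [← hR]
    rfl
  refine ⟨fun θ => {v | (v, θ) ∈ propSet R ∧ (v, θ) ∉ R}, ?_, ?_⟩
  · rintro θ θ' v hθ hθ' hle ⟨hv1, hv2⟩
    have h1 : #{z : P | v < z ∧ (z, θ') ∉ R} < θ' := hv1 θ' hθ' hle
    have h2 : #{x : P | x < v ∧ (x, θ') ∈ propSet R} < θ' := by
      by_contra hcon
      exact hv2 ((memR v θ).2 ⟨θ', hθ', hle, not_lt.1 hcon⟩)
    refine lt_of_le_of_lt (le_trans (mk_le_mk_of_subset ?_) (mk_union_le _ _))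
      (add_lt_of_lt hθ'.aleph0_le h2 h1)
    rintro x ⟨hx, hx'⟩
    rcases hx with hx | hx
    · exact Or.inl ⟨hx, hx'.1⟩
    · exact Or.inr ⟨hx, hx'.2⟩
  · intro θ v hθ hv
    by_cases hG : (v, θ) ∈ propSet R
    · have hvR : (v, θ) ∈ R := by
        by_contra h
        exact hv ⟨hG, h⟩
      -- minimal rejected below v
      let T : Set P := {w | w ≤ v ∧ ∃ k, k.IsRegular ∧ θ ≤ k ∧ (w, k) ∈ R}
      have hT : T.Nonempty := ⟨v, le_rfl, θ, hθ, le_rfl, hvR⟩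
      obtain ⟨w, ⟨hwv, k, hk, hθk, hwk⟩, hmin⟩ := (wellFounded_lt (α := P)).has_min T hT
      obtain ⟨k1, hk1, hkk1, hle⟩ := (memR w k).1 hwk
      refine ⟨k1, hk1, hθk.trans hkk1, hle.trans (mk_le_mk_of_subset ?_)⟩
      rintro x ⟨hx, hx'⟩
      refine ⟨Or.inl (hx.trans_le hwv), hx', fun hxR => ?_⟩
      exact hmin x ⟨hx.le.trans hwv, k1, hk1, hθk.trans hkk1, hxR⟩ hx
    · -- maximal non-proposer above v
      let T : Set P := {w | v ≤ w ∧ ∃ k, k.IsRegular ∧ θ ≤ k ∧ (w, k) ∉ propSet R}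
      have hT : T.Nonempty := ⟨v, le_rfl, θ, hθ, le_rfl, hG⟩
      obtain ⟨w, ⟨hwv, k, hk, hθk, hwk⟩, hmin⟩ := (wellFounded_gt (α := P)).has_min T hT
      have : ∃ k1 : Cardinal.{u}, k1.IsRegular ∧ k ≤ k1 ∧ k1 ≤ #{z : P | w < z ∧ (z, k1) ∉ R} := by
        by_contra hcon
        push Not at hcon
        exact hwk (fun k1 hk1 hkk1 => hcon k1 hk1 hkk1)
      obtain ⟨k1, hk1, hkk1, hle⟩ := this
      refine ⟨k1, hk1, hθk.trans hkk1, hle.trans (mk_le_mk_of_subset ?_)⟩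
      rintro x ⟨hx, hx'⟩
      refine ⟨Or.inr (hwv.trans_lt hx), ?_, hx'⟩
      by_contra hxG
      exact hmin x ⟨hwv.trans hx.le, k1, hk1, hθk.trans hkk1, hxG⟩ hx

end Poset

end Pool.Agent.Helper31.RS
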