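import Pool.Agent.Helper31.RS.Succ

set_option autoImplicit false

open Cardinal Set

namespace Pool.Agent.Helper31.RS

variable {P : Type} {adj : P → P → Prop} {S : Cardinal.{0} → Set P}

/-- At a regular limit `ν`, every member of `S ν` is in `S θ` for all large `θ < ν`. -/
lemma IsKernel.eventually_mem (hS : IsKernel adj S) {ν : Cardinal.{0}} (hν : ν.IsRegular)
    {v : P} (hv : v ∈ S ν) : ∃ c < ν, ∀ θ : Cardinal.{0}, θ.IsRegular → c < θ → v ∈ S θ := by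
  refine ⟨#(nb adj v ∩ S ν : Set P), hS.k1 hν hν le_rfl hv, fun θ hθ hc => ?_⟩
  by_contra hvθ
  obtain ⟨θ', hr, hle, hlarge⟩ := hS.k2 hθ hvθ
  by_cases h : ν ≤ θ'
  · exact absurd (hS.k1 hν hr h hv) (not_lt.2 hlarge)
  · have h' : θ' ≤ ν := (not_le.1 h).le
    have h1 : #(nb adj v ∩ S θ' : Set P) ≤ #(nb adj v ∩ S ν : Set P) :=
      mk_le_mk_of_subset (inter_subset_inter_right _ (hS.mono hr hν h'))
    exact absurd (hlarge.trans h1) (not_le.2 (hc.trans_le hle))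

theorem ext_regLimit (hS : IsKernel adj S) (hsymm : ∀ x y, adj x y → adj y x)
    {ν : Cardinal.{0}} (hν : ν.IsRegular) (hlim : ∀ c < ν, Order.succ c < ν)
    {θ₀ : Cardinal.{0}} (hθ₀ : θ₀.IsRegular) (hlt : θ₀ < ν)
    (IH : ∀ θ θ' : Cardinal.{0}, θ.IsRegular → θ'.IsRegular → θ ≤ θ' → θ' < ν → Ext adj S θ θ') :
    Ext adj S θ₀ ν := by
  classical
  intro Q₀ H₀ hPS
  have hων : ℵ₀ < ν := hθ₀.aleph0_le.trans_lt hlt
  let State : Type 1 := {p : Cardinal.{0} × Set P × Set P //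
    p.1.IsRegular ∧ p.1 < ν ∧ PS adj S p.1 p.2.1 p.2.2}
  have key : ∀ s : State, ∃ s' : State, s.1.1 ≤ s'.1.1 ∧ s.1.2.1 ⊆ s'.1.2.1 ∧
      s.1.2.2 ⊆ s'.1.2.2 ∧ (∀ h ∈ s.1.2.2, nb adj h ∩ S ν ⊆ s'.1.2.1) ∧
      (∀ v ∈ s.1.2.1, v ∈ S ν → v ∈ S s'.1.1) ∧
      (∀ v ∈ s.1.2.1, ∀ θ : Cardinal.{0}, θ.IsRegular → s.1.1 ≤ θ → θ < ν →
        θ ≤ #(nb adj v ∩ S θ : Set P) → (nb adj v ∩ s'.1.2.2).Infinite) := by
    rintro ⟨⟨t, Q, H⟩, ht, htν, hp⟩
    dsimp only at ht htν hp ⊢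
    have hc1 : ∀ v : P, ∃ c < ν, v ∈ S ν → ∀ θ : Cardinal.{0}, θ.IsRegular → c < θ → v ∈ S θ := by
      intro v
      by_cases hv : v ∈ S ν
      · obtain ⟨c, hc, h⟩ := hS.eventually_mem hν hv
        exact ⟨c, hc, fun _ => h⟩
      · exact ⟨0, hν.pos, fun h => absurd h hv⟩
    choose c1 hc1ν hc1 using hc1
    have hc2 : ∀ v : P, ∃ c < ν, (∃ θ : Cardinal.{0}, θ.IsRegular ∧ t ≤ θ ∧ θ < ν ∧
        θ ≤ #(nb adj v ∩ S θ : Set P)) → c.IsRegular ∧ t ≤ c ∧ c ≤ #(nb adj v ∩ S c : Set P) := by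
      intro v
      by_cases hv : ∃ θ : Cardinal.{0}, θ.IsRegular ∧ t ≤ θ ∧ θ < ν ∧
        θ ≤ #(nb adj v ∩ S θ : Set P)
      · obtain ⟨θ, h1, h2, h3, h4⟩ := hv
        exact ⟨θ, h3, fun _ => ⟨h1, h2, h4⟩⟩
      · exact ⟨0, hν.pos, fun h => absurd h hv⟩
    choose c2 hc2ν hc2 using hc2
    have hQν : #Q < ν := hp.card.trans htν
    have hcof : #Q < ν.ord.cof := by rwa [hν.cof_ord]
    have hs1 : (⨆ v : Q, c1 v) < ν := iSup_lt_of_lt_cof_ord hcof (fun v => hc1ν v)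
    have hs2 : (⨆ v : Q, c2 v) < ν := iSup_lt_of_lt_cof_ord hcof (fun v => hc2ν v)
    have hHν : #H < ν := (mk_le_mk_of_subset hp.sub).trans_lt hQν
    set U : Set P := ⋃ h ∈ H, (nb adj h ∩ S ν) with hU
    have hUν : #U < ν := by
      rw [hU, card_biUnion_lt_iff_forall_of_isRegular hν hHν]
      intro h hh
      exact hS.k1 ht hν htν.le (hp.subS hh)
    set c : Cardinal.{0} := max (max t #U) (max (⨆ v : Q, c1 v) (⨆ v : Q, c2 v)) with hc
    have hcν : c < ν := max_lt (max_lt htν hUν) (max_lt hs1 hs2)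
    have htc : t ≤ c := (le_max_left _ _).trans (le_max_left _ _)
    have hUc : #U ≤ c := (le_max_right _ _).trans (le_max_left _ _)
    have hreg : (Order.succ c).IsRegular := isRegular_succ (ht.aleph0_le.trans htc)
    have hsν : Order.succ c < ν := hlim c hcν
    have hbdd1 : ∀ v : Q, c1 v ≤ c := fun v =>
      (le_ciSup (bddAbove_range _) v).trans ((le_max_left _ _).trans (le_max_right _ _))
    have hbdd2 : ∀ v : Q, c2 v ≤ c := fun v =>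
      (le_ciSup (bddAbove_range (fun v : Q => c2 v)) v).trans
        ((le_max_right _ _).trans (le_max_right _ _))
    obtain ⟨Q1, H1, hp1, hQ1, hH1, hsat⟩ := IH t (Order.succ c) ht hreg
      (htc.trans (Order.le_succ c)) hsν Q H hp
    have hp2 : PS adj S (Order.succ c) (Q1 ∪ U) H1 := by
      refine hp1.enlarge subset_union_left ?_
      exact (mk_union_le _ _).trans_lt (add_lt_of_lt hreg.aleph0_le hp1.card
        (Order.lt_succ_of_le hUc))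
    refine ⟨⟨⟨Order.succ c, Q1 ∪ U, H1⟩, hreg, hsν, hp2⟩, htc.trans (Order.le_succ c),
      hQ1.trans subset_union_left, hH1, ?_, ?_, ?_⟩
    · intro h hh x hx
      exact Or.inr (mem_biUnion hh hx)
    · intro v hv hvν
      exact hc1 v hvν _ hreg (Order.lt_succ_of_le (hbdd1 ⟨v, hv⟩))
    · intro v hv θ hθ h1 h2 h3
      obtain ⟨h4, h5, h6⟩ := hc2 v ⟨θ, hθ, h1, h2, h3⟩
      exact hsat v hv (c2 v) h4 h5 (Order.lt_succ_of_le (hbdd2 ⟨v, hv⟩)) h6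
  choose next hnext using key
  let s : ℕ → State := fun n => Nat.rec ⟨⟨θ₀, Q₀, H₀⟩, hθ₀, hlt, hPS⟩ (fun _ s => next s) n
  have hs : ∀ n, s (n+1) = next (s n) := fun n => rfl
  have hR : ∀ n, (s n).1.1 ≤ (s (n+1)).1.1 ∧ (s n).1.2.1 ⊆ (s (n+1)).1.2.1 ∧
      (s n).1.2.2 ⊆ (s (n+1)).1.2.2 ∧ (∀ h ∈ (s n).1.2.2, nb adj h ∩ S ν ⊆ (s (n+1)).1.2.1) ∧
      (∀ v ∈ (s n).1.2.1, v ∈ S ν → v ∈ S (s (n+1)).1.1) ∧
      (∀ v ∈ (s n).1.2.1, ∀ θ : Cardinal.{0}, θ.IsRegular → (s n).1.1 ≤ θ → θ < ν →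
        θ ≤ #(nb adj v ∩ S θ : Set P) → (nb adj v ∩ (s (n+1)).1.2.2).Infinite) := by
    intro n
    rw [hs n]
    exact hnext (s n)
  have htm : Monotone (fun n => (s n).1.1) := monotone_nat_of_le_succ (fun n => (hR n).1)
  have hQm : Monotone (fun n => (s n).1.2.1) := monotone_nat_of_le_succ (fun n => (hR n).2.1)
  have hHm : Monotone (fun n => (s n).1.2.2) := monotone_nat_of_le_succ (fun n => (hR n).2.2.1)
  have hPSn : ∀ n, PS adj S (s n).1.1 (s n).1.2.1 (s n).1.2.2 := fun n => (s n).2.2.2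
  have hreg : ∀ n, (s n).1.1.IsRegular := fun n => (s n).2.1
  have hltν : ∀ n, (s n).1.1 < ν := fun n => (s n).2.2.1
  have hout : ∀ v ∈ S ν, v ∉ (⋃ n, (s n).1.2.1) → nb adj v ∩ (⋃ n, (s n).1.2.2) = ∅ := by
    intro v hv hvQ
    rw [← not_nonempty_iff_eq_empty]
    rintro ⟨h, hvh, hh⟩
    obtain ⟨n, hn⟩ := mem_iUnion.1 hh
    exact hvQ (mem_iUnion.2 ⟨n+1, (hR n).2.2.2.1 h hn ⟨hsymm _ _ hvh, hv⟩⟩)
  refine ⟨⋃ n, (s n).1.2.1, ⋃ n, (s n).1.2.2, ⟨?_, ?_, ?_, ?_, ?_, hout⟩,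
    subset_iUnion (fun n => (s n).1.2.1) 0, subset_iUnion (fun n => (s n).1.2.2) 0, ?_⟩
  · rw [card_iUnion_lt_iff_forall_of_isRegular hν (by simpa using hων)]
    intro n
    exact (hPSn n).card.trans (hltν n)
  · exact iUnion_mono (fun n => (hPSn n).sub)
  · exact iUnion_subset (fun n => (hPSn n).subS.trans (hS.mono (hreg n) hν (hltν n).le))
  · intro x hx y hy
    obtain ⟨a, ha⟩ := mem_iUnion.1 hx
    obtain ⟨b, hb⟩ := mem_iUnion.1 hy
    exact (hPSn (max a b)).anti x (hHm (le_max_left a b) ha) y (hHm (le_max_right a b) hb)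
  · intro v hv
    by_cases hvQ : v ∈ ⋃ n, (s n).1.2.1
    · obtain ⟨n, hn⟩ := mem_iUnion.1 hvQ
      have h1 : v ∈ S (s (n+1)).1.1 := (hR n).2.2.2.2.1 v hn hv
      have h2 : ∀ m, n + 1 ≤ m → v ∈ S (s m).1.1 := fun m hm =>
        hS.mono (hreg _) (hreg _) (htm hm) h1
      by_cases hinf : ∃ m, n + 1 ≤ m ∧ (nb adj v ∩ (s m).1.2.2).Infinite
      · obtain ⟨m, _, hm⟩ := hinf
        right
        exact hm.mono (inter_subset_inter_right _ (subset_iUnion (fun n => (s n).1.2.2) m))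
      · left
        rintro x ⟨hx1, hx2⟩ y ⟨hy1, hy2⟩
        obtain ⟨a, ha⟩ := mem_iUnion.1 hx2
        obtain ⟨b, hb⟩ := mem_iUnion.1 hy2
        let m := max (max a b) (n+1)
        have hm : n + 1 ≤ m := le_max_right _ _
        rcases (hPSn m).ok v (h2 m hm) with h3 | h3
        · exact h3 ⟨hx1, hHm ((le_max_left a b).trans (le_max_left _ _)) ha⟩
            ⟨hy1, hHm ((le_max_right a b).trans (le_max_left _ _)) hb⟩
        · exact absurd ⟨m, hm, h3⟩ hinf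
    · left
      rw [hout v hv hvQ]
      exact subsingleton_empty
  · intro v hv θ hθ h1 h2 h3
    exact ((hR 0).2.2.2.2.2 v hv θ hθ h1 h2 h3).mono
      (inter_subset_inter_right _ (subset_iUnion (fun n => (s n).1.2.2) 1))

end Pool.Agent.Helper31.RS
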